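import Mathlib

set_option autoImplicit false

namespace Pool.Agent.Helper799.PisierL

open Finset

/-- Auerbach basis. -/
theorem auerbach {X : Type*} [NormedAddCommGroup X] [NormedSpace ℝ X] {n : ℕ} (hn : 0 < n)
    (hfin : Module.finrank ℝ X = n) :
    ∃ (φ : Fin n → X →L[ℝ] ℝ) (v : Fin n → X), (∀ j, ‖φ j‖ ≤ 1) ∧ (∀ j, ‖v j‖ ≤ 1) ∧
      ∀ x, x = ∑ j, φ j x • v j := by
  classical
  have hfd : FiniteDimensional ℝ X := FiniteDimensional.of_finrank_pos (by omega)
  have hprop : ProperSpace X := FiniteDimensional.proper_real X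
  let b : Module.Basis (Fin n) ℝ X := Module.finBasisOfFinrankEq ℝ X hfin
  have hcont : Continuous (fun v : Fin n → X => |b.det v|) := by
    apply continuous_abs.comp
    have h1 : (fun v : Fin n → X => b.det v)
        = fun v => Matrix.det (Matrix.of fun i j => b.coord i (v j)) := by
      funext v
      rw [Module.Basis.det_apply]
      rfl
    show Continuous (fun v : Fin n → X => b.det v)
    rw [h1]
    apply Continuous.matrix_det
    apply continuous_matrix
    intro i j
    exact (LinearMap.continuous_of_finiteDimensional (b.coord i)).comp (continuous_apply j)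
  have hcomp : IsCompact (Set.pi Set.univ (fun _ : Fin n => Metric.closedBall (0 : X) 1)) :=
    isCompact_univ_pi fun _ => isCompact_closedBall _ _
  have hne : (Set.pi Set.univ (fun _ : Fin n => Metric.closedBall (0 : X) 1)).Nonempty :=
    ⟨0, by simp⟩
  obtain ⟨v, hv, hmax⟩ := hcomp.exists_isMaxOn hne hcont.continuousOn
  have hvn : ∀ j, ‖v j‖ ≤ 1 := by
    intro j
    have := hv j (Set.mem_univ _)
    simpa using this
  have hdet : 0 < |b.det v| := by
    let u : Fin n → X := fun i => (‖b i‖)⁻¹ • b i
    have hu : u ∈ Set.pi Set.univ (fun _ : Fin n => Metric.closedBall (0 : X) 1) := by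
      intro i _
      simp only [u, mem_closedBall_zero_iff, norm_smul, norm_inv, norm_norm]
      rw [inv_mul_cancel₀ (norm_ne_zero_iff.2 (b.ne_zero i))]
    have h1 : |b.det u| ≤ |b.det v| := hmax hu
    have h2 : b.det u = (∏ i, (‖b i‖)⁻¹) * b.det b := by
      have := b.det.toMultilinearMap.map_smul_univ (fun i => (‖b i‖)⁻¹) b
      simpa [u] using this
    rw [b.det_self, mul_one] at h2
    have h3 : 0 < |b.det u| := by
      rw [h2]
      apply abs_pos.2
      apply Finset.prod_ne_zero_iff.2
      intro i _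
      exact inv_ne_zero (norm_ne_zero_iff.2 (b.ne_zero i))
    linarith
  have hdne : b.det v ≠ 0 := abs_pos.1 hdet
  obtain ⟨hli, hsp⟩ := (Module.Basis.is_basis_iff_det b).2 (isUnit_iff_ne_zero.2 hdne)
  let c : Module.Basis (Fin n) ℝ X := Module.Basis.mk hli hsp.ge
  have hcoord : ∀ i x, ‖x‖ ≤ 1 → |c.coord i x| ≤ 1 := by
    intro i x hx
    have h1 := congrArg (fun L => L x) (b.det_smul_mk_coord_eq_det_update hli hsp.ge i)
    have h2 : b.det v * c.coord i x = b.det (Function.update v i x) := h1
    have h3 : Function.update v i x ∈ Set.pi Set.univ (fun _ : Fin n => Metric.closedBall (0 : X) 1) := by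
      intro j _
      by_cases hj : j = i
      · subst hj; simpa using hx
      · rw [Function.update_of_ne hj]; simpa using hvn j
    have h4 : |b.det (Function.update v i x)| ≤ |b.det v| := hmax h3
    rw [← h2, abs_mul] at h4
    have h5 : |b.det v| * |c.coord i x| ≤ |b.det v| * 1 := by linarith
    exact le_of_mul_le_mul_left h5 hdet
  have hbound : ∀ i x, ‖c.coord i x‖ ≤ 1 * ‖x‖ := by
    intro i x
    rcases eq_or_ne x 0 with rfl | hx
    · simp
    · have hxn : 0 < ‖x‖ := norm_pos_iff.2 hx
      have h1 := hcoord i (‖x‖⁻¹ • x) (by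
        rw [norm_smul, norm_inv, norm_norm, inv_mul_cancel₀ hxn.ne'])
      rw [map_smul, smul_eq_mul, abs_mul, abs_of_pos (inv_pos.2 hxn), inv_mul_le_iff₀ hxn] at h1
      rw [Real.norm_eq_abs]
      linarith
  refine ⟨fun i => LinearMap.mkContinuous (c.coord i) 1 (hbound i), v, ?_, hvn, ?_⟩
  · intro j
    exact LinearMap.mkContinuous_norm_le _ (by norm_num) _
  · intro x
    have h1 := c.sum_repr x
    have h2 : ∀ i, c i = v i := by
      intro i
      simp [c]
    rw [Finset.sum_congr rfl fun i _ => by rw [h2 i]] at h1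
    exact h1.symm

end Pool.Agent.Helper799.PisierL
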