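import Mathlib

set_option autoImplicit false

namespace Pool.Agent.Helper799.PisierL

open Finset Complex

/-- characters -/
noncomputable def ch (M : ℕ) (l : ℤ) (k : ℕ) : ℂ :=
  Complex.exp ((l : ℂ) * (2 * Real.pi * I * k / M))

lemma ch_add (M : ℕ) (l m : ℤ) (k : ℕ) : ch M (l + m) k = ch M l k * ch M m k := by
  unfold ch
  rw [← Complex.exp_add]
  congr 1
  push_cast
  ring

lemma ch_star (M : ℕ) (l : ℤ) (k : ℕ) : (starRingEnd ℂ) (ch M l k) = ch M (-l) k := by
  unfold ch
  rw [← Complex.exp_conj]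
  congr 1
  simp only [map_mul, map_div₀, Complex.conj_ofReal, map_intCast, map_natCast, Complex.conj_I,
    map_ofNat]
  push_cast
  ring

lemma ch_zero (M : ℕ) (k : ℕ) : ch M 0 k = 1 := by simp [ch]

lemma sum_ch {M : ℕ} (hM : 0 < M) (l : ℤ) (hl : l ≠ 0) (h1 : -(M : ℤ) < l) (h2 : l < M) :
    ∑ k ∈ range M, ch M l k = 0 := by
  have hM' : (M : ℂ) ≠ 0 := by exact_mod_cast hM.ne'
  set w : ℂ := Complex.exp ((l : ℂ) * (2 * Real.pi * I / M)) with hw
  have h3 : ∀ k, ch M l k = w ^ k := by
    intro k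
    rw [hw, ← Complex.exp_nat_mul]
    unfold ch
    congr 1
    field_simp
  have h4 : w ^ M = 1 := by
    rw [hw, ← Complex.exp_nat_mul, Complex.exp_eq_one_iff]
    refine ⟨l, ?_⟩
    field_simp
  have h5 : w ≠ 1 := by
    intro hw1
    rw [hw, Complex.exp_eq_one_iff] at hw1
    obtain ⟨n, hn⟩ := hw1
    have hpi : (2 * Real.pi * I : ℂ) ≠ 0 := by
      simp [Real.pi_ne_zero]
    have h6 : (l : ℂ) = n * M := by
      field_simp at hn
      rw [hn]; ring
    have h7 : l = n * M := by exact_mod_cast h6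
    rcases lt_trichotomy n 0 with hn0 | hn0 | hn0
    · have : n * (M : ℤ) ≤ -1 * M := by
        apply mul_le_mul_of_nonneg_right (by omega) (by positivity)
      omega
    · subst hn0; simp at h7; exact hl h7
    · have : 1 * (M : ℤ) ≤ n * M := by
        apply mul_le_mul_of_nonneg_right (by omega) (by positivity)
      omega
  rw [Finset.sum_congr rfl fun k _ => h3 k]
  have h6 := mul_neg_geom_sum w M
  rw [h4, sub_self] at h6
  rcases mul_eq_zero.1 h6 with h7 | h7
  · exact absurd (sub_eq_zero.1 h7).symm h5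
  · exact h7

lemma sum_ch_zero (M : ℕ) : ∑ k ∈ range M, ch M 0 k = M := by simp [ch_zero]

/-- the Dirichlet kernel squared -/
noncomputable def dd (M d : ℕ) (k : ℕ) : ℂ :=
  ∑ a ∈ range d, ∑ b ∈ range d, ch M ((a : ℤ) - b) k

lemma dd_eq (M d k : ℕ) : dd M d k = ((Complex.normSq (∑ a ∈ range d, ch M a k) : ℝ) : ℂ) := by
  rw [← Complex.mul_conj, map_sum, Finset.sum_mul_sum]
  unfold dd
  apply Finset.sum_congr rfl; intro a _
  apply Finset.sum_congr rfl; intro b _
  rw [ch_star, ← ch_add]
  congr 1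

/-- the real kernel -/
noncomputable def kap (M d : ℕ) (k : ℕ) : ℝ :=
  2 * Real.sin (d * (2 * Real.pi * k / M)) * Complex.normSq (∑ a ∈ range d, ch M a k)

lemma kap_eq (M d k : ℕ) : ((kap M d k : ℝ) : ℂ)
    = -I * ((ch M d k - ch M (-d) k) * dd M d k) := by
  have h1 : ((Real.sin (d * (2 * Real.pi * k / M)) : ℝ) : ℂ) * 2 = -I * (ch M d k - ch M (-d) k) := by
    rw [Complex.ofReal_sin, Complex.sin]
    unfold ch
    have e1 : -(((d * (2 * Real.pi * k / M) : ℝ) : ℂ)) * I
        = (((-(d : ℤ) : ℤ) : ℂ)) * (2 * Real.pi * I * k / M) := by push_cast; ring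
    have e2 : (((d * (2 * Real.pi * k / M) : ℝ) : ℂ)) * I
        = ((((d : ℤ) : ℤ) : ℂ)) * (2 * Real.pi * I * k / M) := by push_cast; ring
    rw [e1, e2]
    ring
  unfold kap
  rw [dd_eq, Complex.ofReal_mul, Complex.ofReal_mul, Complex.ofReal_ofNat, mul_comm (2 : ℂ), h1]
  ring

lemma count_pairs {d : ℕ} {l : ℕ} (hl : l ≤ d) (c : ℂ) :
    ∑ a ∈ range d, ∑ b ∈ range d, (if (a : ℤ) - b = d - l then c else 0) = l * c := by
  rw [Finset.sum_comm]
  have h1 : ∀ b ∈ range d, ∑ a ∈ range d, (if (a : ℤ) - b = d - l then c else 0)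
      = if b < l then c else 0 := by
    intro b hb
    have h2 : ∀ a ∈ range d, (if (a : ℤ) - b = d - l then c else 0)
        = if a = b + (d - l) then c else 0 := by
      intro a _
      have : ((a : ℤ) - b = d - l) ↔ a = b + (d - l) := by omega
      simp [this]
    rw [Finset.sum_congr rfl h2, Finset.sum_ite_eq' (range d)]
    have : (b + (d - l) ∈ range d) ↔ b < l := by rw [mem_range]; rw [mem_range] at hb; omega
    simp [this]
  rw [Finset.sum_congr rfl h1, ← Finset.sum_filter, Finset.sum_const, nsmul_eq_mul]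
  congr 2
  have : (range d).filter (fun b => b < l) = range l := by
    ext b; simp only [mem_filter, mem_range]; omega
  rw [this, card_range]

lemma L0_nonneg {d : ℕ} (hd : 0 < d) {l : ℕ} (hl : l ≤ d) :
    ∑ k ∈ range (3 * d), ((kap (3 * d) d k : ℝ) : ℂ) * ch (3 * d) l k = I * ((3 * d : ℕ) * l) := by
  set M := 3 * d with hM
  have hMpos : 0 < M := by omega
  have h1 : ∀ k, ((kap M d k : ℝ) : ℂ) * ch M l k
      = -I * (∑ a ∈ range d, ∑ b ∈ range d,
        (ch M ((a : ℤ) - b + d + l) k - ch M ((a : ℤ) - b - d + l) k)) := by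
    intro k
    rw [kap_eq]
    unfold dd
    rw [mul_assoc, mul_assoc, Finset.sum_mul, Finset.mul_sum]
    congr 1
    apply Finset.sum_congr rfl; intro a _
    rw [Finset.sum_mul, Finset.mul_sum]
    apply Finset.sum_congr rfl; intro b _
    rw [show (a : ℤ) - b + d + l = d + (((a : ℤ) - b) + l) by ring,
      show (a : ℤ) - b - d + l = -d + (((a : ℤ) - b) + l) by ring, ch_add M d, ch_add M (-d),
      ch_add M ((a : ℤ) - b) l]
    ring
  rw [Finset.sum_congr rfl fun k _ => h1 k, ← Finset.mul_sum, Finset.sum_comm]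
  have h2 : ∀ a ∈ range d, ∑ k ∈ range M, ∑ b ∈ range d,
      (ch M ((a : ℤ) - b + d + l) k - ch M ((a : ℤ) - b - d + l) k)
      = ∑ b ∈ range d, (if (a : ℤ) - b = d - l then -(M : ℂ) else 0) := by
    intro a ha
    rw [Finset.sum_comm]
    apply Finset.sum_congr rfl
    intro b hb
    rw [mem_range] at ha hb
    rw [Finset.sum_sub_distrib]
    have e1 : ∑ k ∈ range M, ch M ((a : ℤ) - b + d + l) k = 0 := by
      apply sum_ch hMpos <;> omega
    rw [e1, zero_sub]
    by_cases hab : (a : ℤ) - b = d - l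
    · rw [if_pos hab, hab, show (d : ℤ) - l - d + l = 0 by ring, sum_ch_zero]
    · rw [if_neg hab, sum_ch hMpos _ (by omega) (by omega) (by omega), neg_zero]
  rw [Finset.sum_congr rfl h2, count_pairs hl]
  ring

lemma L0 {d : ℕ} (hd : 0 < d) {l : ℤ} (h1 : -(d : ℤ) ≤ l) (h2 : l ≤ d) :
    ∑ k ∈ range (3 * d), ((kap (3 * d) d k : ℝ) : ℂ) * ch (3 * d) l k
      = I * ((3 * d : ℕ) * l) := by
  rcases le_or_gt 0 l with h | h
  · obtain ⟨m, rfl⟩ := Int.eq_ofNat_of_zero_le h
    have := L0_nonneg hd (l := m) (by omega)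
    simpa using this
  · obtain ⟨m, hm⟩ := Int.eq_ofNat_of_zero_le (show 0 ≤ -l by omega)
    have h3 := L0_nonneg hd (l := m) (by omega)
    have h4 := congrArg (starRingEnd ℂ) h3
    rw [map_sum] at h4
    simp only [map_mul, Complex.conj_ofReal, ch_star, Complex.conj_I, map_natCast] at h4
    have hl : l = -(m : ℤ) := by omega
    subst hl
    rw [h4]
    push_cast
    ring

/-- quadrature for the derivative at `0` of polynomials of degree `≤ d` -/
theorem quad (d : ℕ) (hd : 0 < d) : ∃ (M : ℕ) (a t : ℕ → ℝ), (∀ k, |t k| ≤ 1 / 2) ∧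
    ∑ k ∈ range M, |a k| ≤ 4 * d ∧
    ∀ j ≤ d, ∑ k ∈ range M, a k * t k ^ j = if j = 1 then 1 else 0 := by
  set M := 3 * d with hM
  have hMpos : 0 < M := by omega
  have hMr : (0 : ℝ) < M := by exact_mod_cast hMpos
  let t : ℕ → ℝ := fun k => Real.sin (2 * Real.pi * k / M) / 2
  refine ⟨M, fun k => 2 / M * kap M d k, t, ?_, ?_, ?_⟩
  · intro k
    simp only [t]
    rw [abs_div, abs_of_pos (by norm_num : (0 : ℝ) < 2)]
    have := Real.abs_sin_le_one (2 * Real.pi * k / M)
    linarith
  · have h1 : ∀ k, |2 / M * kap M d k| ≤ 4 / M * Complex.normSq (∑ a ∈ range d, ch M a k) := by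
      intro k
      unfold kap
      rw [abs_mul, abs_mul, abs_mul, abs_of_pos (by positivity : (0 : ℝ) < 2 / M),
        abs_of_pos (by norm_num : (0 : ℝ) < 2), abs_of_nonneg (Complex.normSq_nonneg _)]
      have h2 := Real.abs_sin_le_one (d * (2 * Real.pi * k / M))
      have h3 := Complex.normSq_nonneg (∑ a ∈ range d, ch M a k)
      calc 2 / (M : ℝ) * (2 * |Real.sin (d * (2 * Real.pi * k / M))| *
            Complex.normSq (∑ a ∈ range d, ch M a k))
          ≤ 2 / (M : ℝ) * (2 * 1 * Complex.normSq (∑ a ∈ range d, ch M a k)) := by gcongr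
        _ = _ := by ring
    refine (Finset.sum_le_sum fun k _ => h1 k).trans ?_
    rw [← Finset.mul_sum]
    have h2 : ((∑ k ∈ range M, Complex.normSq (∑ a ∈ range d, ch M a k) : ℝ) : ℂ)
        = (M : ℂ) * d := by
      push_cast
      rw [Finset.sum_congr rfl fun k _ => (dd_eq M d k).symm]
      unfold dd
      rw [Finset.sum_comm]
      have h3 : ∀ a ∈ range d, ∑ k ∈ range M, ∑ b ∈ range d, ch M ((a : ℤ) - b) k
          = (M : ℂ) := by
        intro a ha
        rw [Finset.sum_comm]
        rw [Finset.sum_eq_single a]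
        · rw [sub_self, sum_ch_zero]
        · intro b hb hba
          rw [mem_range] at ha hb
          apply sum_ch hMpos <;> omega
        · intro h; exact absurd ha h
      rw [Finset.sum_congr rfl h3]
      simp; ring
    have h3 : ∑ k ∈ range M, Complex.normSq (∑ a ∈ range d, ch M a k) = (M : ℝ) * d := by
      exact_mod_cast h2
    rw [h3]
    apply le_of_eq
    field_simp
  · -- the recursion
    have ht : ∀ k (l : ℤ), ((t k : ℝ) : ℂ) * ch M l k
        = (ch M (l + 1) k - ch M (l - 1) k) * (-I / 4) := by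
      intro k l
      have e0 : ((t k : ℝ) : ℂ) = (ch M 1 k - ch M (-1) k) * (-I / 4) := by
        simp only [t]
        rw [Complex.ofReal_div, Complex.ofReal_sin, Complex.sin]
        unfold ch
        have e1 : -((2 * Real.pi * k / M : ℝ) : ℂ) * I
            = (((-1 : ℤ) : ℂ)) * (2 * Real.pi * I * k / M) := by push_cast; ring
        have e2 : ((2 * Real.pi * k / M : ℝ) : ℂ) * I
            = (((1 : ℤ) : ℂ)) * (2 * Real.pi * I * k / M) := by push_cast; ring
        rw [e1, e2]
        push_cast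
        ring
      rw [e0, ch_add, sub_eq_add_neg l 1, ch_add M l (-1)]
      ring
    have hL0 : ∀ l : ℤ, -(d : ℤ) ≤ l → l ≤ d →
        ∑ k ∈ range M, ((kap M d k : ℝ) : ℂ) * ch M l k = I * ((M : ℂ) * l) :=
      fun l h1 h2 => L0 hd h1 h2
    have hrec : ∀ j : ℕ, j + 1 ≤ d → ∀ l : ℤ, -((d : ℤ) - (j + 1)) ≤ l → l ≤ (d : ℤ) - (j + 1) →
        ∑ k ∈ range M, ((kap M d k : ℝ) : ℂ) * (((t k : ℝ) : ℂ) ^ (j + 1) * ch M l k)
          = if j = 0 then (M : ℂ) / 2 else 0 := by
      intro j
      induction j with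
      | zero =>
        intro hj l hl1 hl2
        have e1 : ∀ k, ((kap M d k : ℝ) : ℂ) * (((t k : ℝ) : ℂ) ^ (0 + 1) * ch M l k)
            = (((kap M d k : ℝ) : ℂ) * ch M (l + 1) k - ((kap M d k : ℝ) : ℂ) * ch M (l - 1) k)
              * (-I / 4) := by
          intro k
          rw [zero_add, pow_one, ht]
          ring
        rw [Finset.sum_congr rfl fun k _ => e1 k, ← Finset.sum_mul, Finset.sum_sub_distrib,
          hL0 _ (by push_cast at hl1; omega) (by push_cast at hl2; omega),
          hL0 _ (by push_cast at hl1; omega) (by push_cast at hl2; omega)]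
        rw [if_pos rfl, Int.cast_add, Int.cast_sub, Int.cast_one]
        have hI : I * I = -1 := Complex.I_mul_I
        linear_combination (-(M : ℂ) / 2) * hI
      | succ j ih =>
        intro hj l hl1 hl2
        have e1 : ∀ k, ((kap M d k : ℝ) : ℂ) * (((t k : ℝ) : ℂ) ^ (j + 1 + 1) * ch M l k)
            = (((kap M d k : ℝ) : ℂ) * (((t k : ℝ) : ℂ) ^ (j + 1) * ch M (l + 1) k)
              - ((kap M d k : ℝ) : ℂ) * (((t k : ℝ) : ℂ) ^ (j + 1) * ch M (l - 1) k))
              * (-I / 4) := by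
          intro k
          rw [pow_succ, mul_assoc, ht]
          ring
        rw [Finset.sum_congr rfl fun k _ => e1 k, ← Finset.sum_mul, Finset.sum_sub_distrib,
          ih (by omega) (l + 1) (by push_cast at hl1 ⊢; omega) (by push_cast at hl2 ⊢; omega),
          ih (by omega) (l - 1) (by push_cast at hl1 ⊢; omega) (by push_cast at hl2 ⊢; omega)]
        simp
    intro j hj
    have key : ((∑ k ∈ range M, 2 / M * kap M d k * t k ^ j : ℝ) : ℂ)
        = ((if j = 1 then 1 else 0 : ℝ) : ℂ) := by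
      rcases Nat.eq_zero_or_pos j with rfl | hjpos
      · have h0 := hL0 0 (by omega) (by omega)
        simp only [ch_zero, mul_one, Int.cast_zero, mul_zero] at h0
        push_cast
        simp only [pow_zero, mul_one]
        rw [← Finset.mul_sum, h0]
        simp
      · obtain ⟨i, rfl⟩ : ∃ i, j = i + 1 := ⟨j - 1, by omega⟩
        have h0 := hrec i hj 0 (by push_cast; omega) (by push_cast; omega)
        simp only [ch_zero, mul_one] at h0
        push_cast
        have e1 : ∀ k, (2 : ℂ) / M * ((kap M d k : ℝ) : ℂ) * ((t k : ℝ) : ℂ) ^ (i + 1)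
            = 2 / M * (((kap M d k : ℝ) : ℂ) * ((t k : ℝ) : ℂ) ^ (i + 1)) := fun k => by ring
        rw [Finset.sum_congr rfl fun k _ => e1 k, ← Finset.mul_sum, h0]
        have hMc : (M : ℂ) ≠ 0 := by exact_mod_cast hMpos.ne'
        by_cases hi : i = 0
        · rw [if_pos hi, if_pos (by omega), Complex.ofReal_one]
          field_simp
        · rw [if_neg hi, if_neg (by omega)]
          simp
    exact_mod_cast key

end Pool.Agent.Helper799.PisierL
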