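import Mathlib

set_option autoImplicit false

namespace Pool.Agent.Helper799.PisierL

open Finset

/-- the cube as a group -/
abbrev Cu (s : ℕ) := Fin s → ℤˣ

/-- real value of a sign -/
def rv (u : ℤˣ) : ℝ := ((u : ℤ) : ℝ)

lemma rv_mul (u v : ℤˣ) : rv (u * v) = rv u * rv v := by simp [rv]

lemma rv_one : rv 1 = 1 := by simp [rv]

lemma rv_neg_one : rv (-1) = -1 := by simp [rv]

lemma rv_cases (u : ℤˣ) : rv u = 1 ∨ rv u = -1 := by
  rcases Int.units_eq_one_or u with h | h
  · left; rw [h, rv_one]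
  · right; rw [h, rv_neg_one]

lemma rv_sq (u : ℤˣ) : rv u * rv u = 1 := by
  rcases rv_cases u with h | h <;> rw [h] <;> norm_num

variable {s : ℕ}

/-- Walsh functions -/
def wal (A : Finset (Fin s)) (x : Cu s) : ℝ := ∏ i ∈ A, rv (x i)

lemma wal_mul (A : Finset (Fin s)) (x y : Cu s) : wal A (x * y) = wal A x * wal A y := by
  unfold wal
  rw [← Finset.prod_mul_distrib]
  exact Finset.prod_congr rfl fun i _ => rv_mul _ _

lemma wal_sq (A : Finset (Fin s)) (x : Cu s) : wal A x * wal A x = 1 := by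
  unfold wal
  rw [← Finset.prod_mul_distrib]
  exact Finset.prod_eq_one fun i _ => rv_sq _

lemma card_cu : (Fintype.card (Cu s) : ℝ) = 2 ^ s := by
  rw [Fintype.card_fun, Fintype.card_fin, Fintype.card_units_int]
  push_cast
  rfl

/-- flip of one coordinate -/
def fl (i : Fin s) : Cu s := Pi.mulSingle i (-1)

lemma wal_fl (A : Finset (Fin s)) (i : Fin s) : wal A (fl i) = if i ∈ A then -1 else 1 := by
  unfold wal fl
  by_cases h : i ∈ A
  · rw [if_pos h, ← Finset.mul_prod_erase A _ h, Pi.mulSingle_eq_same, rv_neg_one]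
    rw [Finset.prod_eq_one, mul_one]
    intro j hj
    rw [Pi.mulSingle_eq_of_ne (Finset.ne_of_mem_erase hj), rv_one]
  · rw [if_neg h]
    apply Finset.prod_eq_one
    intro j hj
    rw [Pi.mulSingle_eq_of_ne, rv_one]
    rintro rfl
    exact h hj

lemma wal_orth (A B : Finset (Fin s)) :
    ∑ x : Cu s, wal A x * wal B x = if A = B then 2 ^ s else 0 := by
  by_cases h : A = B
  · subst h
    rw [if_pos rfl, Finset.sum_congr rfl fun x _ => wal_sq A x]
    simp only [Finset.sum_const, Finset.card_univ, nsmul_eq_mul, mul_one]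
    exact card_cu
  · rw [if_neg h]
    obtain ⟨i, hi⟩ : ∃ i, ¬ (i ∈ A ↔ i ∈ B) := by
      by_contra hcon
      push Not at hcon
      exact h (Finset.ext hcon)
    have h1 : ∑ x : Cu s, wal A x * wal B x
        = ∑ x : Cu s, wal A (fl i * x) * wal B (fl i * x) :=
      (Equiv.sum_comp (Equiv.mulLeft (fl i)) fun x => wal A x * wal B x).symm
    have h2 : ∀ x : Cu s, wal A (fl i * x) * wal B (fl i * x) = -(wal A x * wal B x) := by
      intro x
      rw [wal_mul, wal_mul, wal_fl, wal_fl]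
      by_cases hA : i ∈ A
      · have hB : i ∉ B := fun hB => hi ⟨fun _ => hB, fun _ => hA⟩
        rw [if_pos hA, if_neg hB]; ring
      · have hB : i ∈ B := by
          by_contra hB
          exact hi ⟨fun h => absurd h hA, fun h => absurd h hB⟩
        rw [if_neg hA, if_pos hB]; ring
    rw [Finset.sum_congr rfl fun x _ => h2 x, Finset.sum_neg_distrib] at h1
    linarith

/-- scalar Walsh coefficients -/
noncomputable def co (g : Cu s → ℝ) (A : Finset (Fin s)) : ℝ :=
  ((2 : ℝ) ^ s)⁻¹ * ∑ x, wal A x * g x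

lemma parseval (c : Finset (Fin s) → ℝ) :
    ∑ x : Cu s, (∑ A, c A * wal A x) ^ 2 = 2 ^ s * ∑ A, c A ^ 2 := by
  have h1 : ∀ x : Cu s, (∑ A, c A * wal A x) ^ 2
      = ∑ A, ∑ B, c A * c B * (wal A x * wal B x) := by
    intro x
    rw [sq, Finset.sum_mul_sum]
    apply Finset.sum_congr rfl; intro A _
    apply Finset.sum_congr rfl; intro B _
    ring
  rw [Finset.sum_congr rfl fun x _ => h1 x, Finset.sum_comm, Finset.mul_sum]
  apply Finset.sum_congr rfl; intro A _
  rw [Finset.sum_comm]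
  have h2 : ∀ B, ∑ x : Cu s, c A * c B * (wal A x * wal B x)
      = if A = B then 2 ^ s * (c A * c B) else 0 := by
    intro B
    rw [← Finset.mul_sum, wal_orth]
    split_ifs <;> ring
  rw [Finset.sum_congr rfl fun B _ => h2 B, Finset.sum_ite_eq Finset.univ]
  simp; ring

lemma bessel (g : Cu s → ℝ) : 2 ^ s * ∑ A, co g A ^ 2 ≤ ∑ x, g x ^ 2 := by
  have h2 : (0 : ℝ) < 2 ^ s := by positivity
  have h0 : 0 ≤ ∑ x : Cu s, (g x - ∑ A, co g A * wal A x) ^ 2 :=
    Finset.sum_nonneg fun x _ => sq_nonneg _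
  have h1 : ∑ x : Cu s, (g x - ∑ A, co g A * wal A x) ^ 2
      = ∑ x, g x ^ 2 - 2 * ∑ x, g x * ∑ A, co g A * wal A x
        + ∑ x : Cu s, (∑ A, co g A * wal A x) ^ 2 := by
    rw [Finset.mul_sum, ← Finset.sum_sub_distrib, ← Finset.sum_add_distrib]
    exact Finset.sum_congr rfl fun x _ => by ring
  have h3 : ∑ x, g x * ∑ A, co g A * wal A x = 2 ^ s * ∑ A, co g A ^ 2 := by
    have e1 : ∀ x, g x * ∑ A, co g A * wal A x = ∑ A, co g A * (wal A x * g x) := by
      intro x
      rw [Finset.mul_sum]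
      exact Finset.sum_congr rfl fun A _ => by ring
    rw [Finset.sum_congr rfl fun x _ => e1 x, Finset.sum_comm, Finset.mul_sum]
    apply Finset.sum_congr rfl; intro A _
    rw [← Finset.mul_sum]
    have : ∑ x, wal A x * g x = 2 ^ s * co g A := by
      unfold co
      rw [← mul_assoc, mul_inv_cancel₀ h2.ne', one_mul]
    rw [this]; ring
  rw [h1, h3, parseval] at h0
  linarith

section vector
variable {X : Type*} [NormedAddCommGroup X] [NormedSpace ℝ X]

/-- vector Walsh coefficients -/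
noncomputable def vc (f : Cu s → X) (A : Finset (Fin s)) : X :=
  ((2 : ℝ) ^ s)⁻¹ • ∑ x, wal A x • f x

lemma co_vc (φ : X →L[ℝ] ℝ) (f : Cu s → X) (A : Finset (Fin s)) :
    φ (vc f A) = co (fun x => φ (f x)) A := by
  unfold vc co
  simp [map_smul, map_sum]

/-- noise operator -/
noncomputable def Tn (t : ℝ) (f : Cu s → X) (x : Cu s) : X :=
  ∑ A, (t ^ A.card * wal A x) • vc f A

lemma Tn_eq (t : ℝ) (f : Cu s → X) (x : Cu s) :
    Tn t f x = ((2 : ℝ) ^ s)⁻¹ • ∑ y : Cu s, (∏ i, (1 + t * rv (y i))) • f (x * y) := by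
  have h1 : ∀ y : Cu s, ∏ i, (1 + t * rv (y i)) = ∑ A, t ^ A.card * wal A y := by
    intro y
    have := Finset.prod_one_add (Finset.univ : Finset (Fin s)) (f := fun i => t * rv (y i))
    rw [this, Finset.powerset_univ]
    apply Finset.sum_congr rfl
    intro A _
    rw [Finset.prod_mul_distrib, Finset.prod_const]
    rfl
  simp only [h1]
  unfold Tn vc
  simp only [Finset.sum_smul]
  rw [Finset.sum_comm, Finset.smul_sum]
  apply Finset.sum_congr rfl
  intro A _
  rw [smul_comm]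
  congr 1
  have h2 : ∑ y : Cu s, (t ^ A.card * wal A y) • f (x * y)
      = ∑ y : Cu s, (t ^ A.card * wal A (x⁻¹ * y)) • f (x * (x⁻¹ * y)) :=
    (Equiv.sum_comp (Equiv.mulLeft x⁻¹) fun y => (t ^ A.card * wal A y) • f (x * y)).symm
  rw [h2, Finset.smul_sum]
  apply Finset.sum_congr rfl
  intro y _
  rw [mul_inv_cancel_left, wal_mul, smul_smul]
  congr 1
  have h3 : wal A x⁻¹ = wal A x := by
    have e1 : wal A x⁻¹ * wal A x = 1 := by
      rw [← wal_mul, inv_mul_cancel]
      unfold wal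
      exact Finset.prod_eq_one fun i _ => rv_one
    have e2 := wal_sq A x
    have e3 : wal A x ≠ 0 := by
      intro h; rw [h] at e2; norm_num at e2
    exact mul_right_cancel₀ e3 (e1.trans e2.symm)
  rw [h3]; ring

lemma sum_prod_one (t : ℝ) : ∑ y : Cu s, ∏ i, (1 + t * rv (y i)) = 2 ^ s := by
  have h := Finset.prod_univ_sum (κ := fun _ : Fin s => ℤˣ) (fun _ => (Finset.univ : Finset ℤˣ))
    (fun _ u => 1 + t * rv u)
  rw [Fintype.piFinset_univ] at h
  rw [← h]
  have h2 : ∑ u : ℤˣ, (1 + t * rv u) = 2 := by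
    rw [show (Finset.univ : Finset ℤˣ) = {1, -1} by rfl]
    rw [Finset.sum_pair (by decide), rv_one, rv_neg_one]
    ring
  rw [h2]
  simp

lemma Tn_norm {t : ℝ} (ht : |t| ≤ 1) {f : Cu s → X} (hf : ∀ x, ‖f x‖ ≤ 1) (x : Cu s) :
    ‖Tn t f x‖ ≤ 1 := by
  rw [Tn_eq, norm_smul, Real.norm_of_nonneg (by positivity)]
  have hnn : ∀ y : Cu s, 0 ≤ ∏ i, (1 + t * rv (y i)) := by
    intro y
    apply Finset.prod_nonneg
    intro i _
    rcases rv_cases (y i) with h | h <;> rw [h] <;> linarith [(abs_le.1 ht).1, (abs_le.1 ht).2]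
  have h1 : ‖∑ y : Cu s, (∏ i, (1 + t * rv (y i))) • f (x * y)‖ ≤ 2 ^ s := by
    refine (norm_sum_le _ _).trans ?_
    rw [← sum_prod_one (s := s) t]
    apply Finset.sum_le_sum
    intro y _
    rw [norm_smul, Real.norm_of_nonneg (hnn y)]
    have := hf (x * y)
    nlinarith [hnn y]
  rw [inv_mul_le_iff₀ (by positivity)]
  linarith

end vector

end Pool.Agent.Helper799.PisierL
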