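import Mathlib
import Pool.Agent.Helper799.PisierL.Quad
import Pool.Agent.Helper799.PisierL.Walsh

set_option autoImplicit false

namespace Pool.Agent.Helper799.PisierL

open Finset

variable {s : ℕ} {X : Type*} [NormedAddCommGroup X] [NormedSpace ℝ X]

/-- quadratic norm over the cube -/
noncomputable def io : (Cu s → X) ≃ₗ[ℝ] PiLp 2 (fun _ : Cu s => X) :=
  (WithLp.linearEquiv 2 ℝ (Cu s → X)).symm

lemma io_norm (F : Cu s → X) : ‖io F‖ = Real.sqrt (∑ x, ‖F x‖ ^ 2) := by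
  rw [PiLp.norm_eq_of_L2]
  rfl

lemma io_le {F : Cu s → X} {C : ℝ} (hC : 0 ≤ C) (h : ∑ x, ‖F x‖ ^ 2 ≤ 2 ^ s * C ^ 2) :
    ‖io F‖ ≤ C * Real.sqrt (2 ^ s) := by
  rw [io_norm]
  refine (Real.sqrt_le_sqrt h).trans (le_of_eq ?_)
  rw [Real.sqrt_mul (by positivity), Real.sqrt_sq hC]
  ring

/-- the part of high degree -/
noncomputable def hi (d : ℕ) (t : ℝ) (f : Cu s → X) (x : Cu s) : X :=
  ∑ A ∈ Finset.univ.filter (fun A : Finset (Fin s) => ¬ A.card ≤ d),
    (t ^ A.card * wal A x) • vc f A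

lemma hi_small {n d : ℕ} (hn : n ≤ 2 ^ d) (φ : Fin n → X →L[ℝ] ℝ) (v : Fin n → X)
    (hφ : ∀ j, ‖φ j‖ ≤ 1) (hv : ∀ j, ‖v j‖ ≤ 1) (hx : ∀ x, x = ∑ j, φ j x • v j)
    {t : ℝ} (ht : |t| ≤ 1 / 2) {f : Cu s → X} (hf : ∀ x, ‖f x‖ ≤ 1) :
    ∑ x, ‖hi d t f x‖ ^ 2 ≤ 2 ^ s * 1 ^ 2 := by
  have h1 : ∀ x, ‖hi d t f x‖ ^ 2 ≤ n * ∑ j, (φ j (hi d t f x)) ^ 2 := by
    intro x
    have e1 : ‖hi d t f x‖ ≤ ∑ j, |φ j (hi d t f x)| := by
      conv_lhs => rw [hx (hi d t f x)]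
      refine (norm_sum_le _ _).trans (Finset.sum_le_sum fun j _ => ?_)
      rw [norm_smul, Real.norm_eq_abs]
      have := hv j
      nlinarith [abs_nonneg (φ j (hi d t f x))]
    have e2 : ‖hi d t f x‖ ^ 2 ≤ (∑ j, |φ j (hi d t f x)|) ^ 2 :=
      pow_le_pow_left₀ (norm_nonneg _) e1 2
    refine e2.trans ?_
    have e3 := sq_sum_le_card_mul_sum_sq (s := (Finset.univ : Finset (Fin n)))
      (f := fun j => |φ j (hi d t f x)|)
    simpa using e3
  have h2 : ∀ j, ∑ x, (φ j (hi d t f x)) ^ 2 ≤ ((1 : ℝ) / 4) ^ d * 2 ^ s := by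
    intro j
    set g : Cu s → ℝ := fun x => φ j (f x) with hg
    let c : Finset (Fin s) → ℝ := fun A => if A.card ≤ d then 0 else t ^ A.card * co g A
    have e1 : ∀ x, φ j (hi d t f x) = ∑ A, c A * wal A x := by
      intro x
      unfold hi
      rw [map_sum, Finset.sum_filter]
      apply Finset.sum_congr rfl
      intro A _
      simp only [c]
      by_cases hA : A.card ≤ d
      · simp [hA]
      · rw [if_pos hA, if_neg hA, map_smul, co_vc, smul_eq_mul]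
        ring
    rw [Finset.sum_congr rfl fun x _ => by rw [e1 x], parseval]
    have e2 : ∀ A, c A ^ 2 ≤ ((1 : ℝ) / 4) ^ d * co g A ^ 2 := by
      intro A
      simp only [c]
      by_cases hA : A.card ≤ d
      · rw [if_pos hA]
        have : 0 ≤ ((1 : ℝ) / 4) ^ d * co g A ^ 2 := by positivity
        simpa using this
      · rw [if_neg hA, mul_pow]
        apply mul_le_mul_of_nonneg_right _ (sq_nonneg _)
        have e3 : (t ^ A.card) ^ 2 = (|t| ^ A.card) ^ 2 := by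
          rw [← pow_mul, ← pow_mul, mul_comm A.card 2, pow_mul, pow_mul, sq_abs]
        rw [e3]
        have e4 : |t| ^ A.card ≤ (1 / 2 : ℝ) ^ d := by
          calc |t| ^ A.card ≤ (1 / 2 : ℝ) ^ A.card := pow_le_pow_left₀ (abs_nonneg _) ht _
            _ ≤ (1 / 2 : ℝ) ^ d := by
              apply pow_le_pow_of_le_one (by norm_num) (by norm_num)
              omega
        calc (|t| ^ A.card) ^ 2 ≤ ((1 / 2 : ℝ) ^ d) ^ 2 :=
              pow_le_pow_left₀ (by positivity) e4 2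
          _ = ((1 : ℝ) / 4) ^ d := by rw [← pow_mul, mul_comm, pow_mul]; norm_num
    have e5 : ∑ A, c A ^ 2 ≤ ((1 : ℝ) / 4) ^ d * ∑ A, co g A ^ 2 := by
      rw [Finset.mul_sum]
      exact Finset.sum_le_sum fun A _ => e2 A
    have e6 := bessel g
    have e7 : ∑ x, g x ^ 2 ≤ 2 ^ s := by
      have : ∀ x, g x ^ 2 ≤ 1 := by
        intro x
        have a1 : |g x| ≤ 1 := by
          have a2 := (φ j).le_opNorm (f x)
          rw [Real.norm_eq_abs] at a2
          calc |g x| ≤ ‖φ j‖ * ‖f x‖ := a2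
            _ ≤ 1 * 1 := by
              apply mul_le_mul (hφ j) (hf x) (norm_nonneg _) (by norm_num)
            _ = 1 := by norm_num
        rw [← sq_abs]
        nlinarith [abs_nonneg (g x)]
      calc ∑ x, g x ^ 2 ≤ ∑ _x : Cu s, (1 : ℝ) := Finset.sum_le_sum fun x _ => this x
        _ = 2 ^ s := by rw [← card_cu]; simp
    have hp : (0 : ℝ) ≤ (1 / 4) ^ d := by positivity
    calc 2 ^ s * ∑ A, c A ^ 2 ≤ 2 ^ s * (((1 : ℝ) / 4) ^ d * ∑ A, co g A ^ 2) := by gcongr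
      _ = ((1 : ℝ) / 4) ^ d * (2 ^ s * ∑ A, co g A ^ 2) := by ring
      _ ≤ ((1 : ℝ) / 4) ^ d * 2 ^ s := by
        apply mul_le_mul_of_nonneg_left _ hp
        exact e6.trans e7
  calc ∑ x, ‖hi d t f x‖ ^ 2 ≤ ∑ x, (n : ℝ) * ∑ j, (φ j (hi d t f x)) ^ 2 :=
        Finset.sum_le_sum fun x _ => h1 x
    _ = n * ∑ j, ∑ x, (φ j (hi d t f x)) ^ 2 := by
        rw [← Finset.mul_sum, Finset.sum_comm]
    _ ≤ n * ∑ _j : Fin n, ((1 : ℝ) / 4) ^ d * 2 ^ s := by
        gcongr with j _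
        exact h2 j
    _ = (n : ℝ) ^ 2 * (((1 : ℝ) / 4) ^ d * 2 ^ s) := by
        simp; ring
    _ ≤ ((2 : ℝ) ^ d) ^ 2 * (((1 : ℝ) / 4) ^ d * 2 ^ s) := by
        have : (n : ℝ) ≤ 2 ^ d := by exact_mod_cast hn
        gcongr
    _ = 2 ^ s * 1 ^ 2 := by
        have : ((2 : ℝ) ^ d) ^ 2 * ((1 : ℝ) / 4) ^ d = 1 := by
          rw [← pow_mul, mul_comm d 2, pow_mul, ← mul_pow]; norm_num
        rw [← mul_assoc, this]; ring

/-- The Rademacher projection in dimension `n ≤ 2 ^ d` has norm at most `8 d`. -/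
theorem kconv {n d : ℕ} (hd : 0 < d) (hn : n ≤ 2 ^ d) (φ : Fin n → X →L[ℝ] ℝ) (v : Fin n → X)
    (hφ : ∀ j, ‖φ j‖ ≤ 1) (hv : ∀ j, ‖v j‖ ≤ 1) (hx : ∀ x, x = ∑ j, φ j x • v j)
    {f : Cu s → X} (hf : ∀ x, ‖f x‖ ≤ 1) :
    ∑ x : Cu s, ‖∑ i, rv (x i) • vc f {i}‖ ^ 2 ≤ 2 ^ s * (8 * d) ^ 2 := by
  obtain ⟨M, a, t, ht, ha, hq⟩ := quad d hd
  let P : Cu s → X := fun x => ∑ i, rv (x i) • vc f {i}
  have hP : P = ∑ k ∈ range M, a k • (Tn (t k) f - hi d (t k) f) := by
    funext x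
    rw [Finset.sum_apply]
    have e1 : ∀ k, (a k • (Tn (t k) f - hi d (t k) f)) x
        = ∑ A ∈ Finset.univ.filter (fun A : Finset (Fin s) => A.card ≤ d),
          (a k * t k ^ A.card) • (wal A x • vc f A) := by
      intro k
      rw [Pi.smul_apply, Pi.sub_apply]
      unfold Tn hi
      have e2 := Finset.sum_filter_add_sum_filter_not (Finset.univ : Finset (Finset (Fin s)))
        (fun A => A.card ≤ d) (fun A => (t k ^ A.card * wal A x) • vc f A)
      rw [← e2, add_sub_cancel_right, Finset.smul_sum]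
      apply Finset.sum_congr rfl
      intro A _
      rw [smul_smul, smul_smul]
      congr 1
      ring
    rw [Finset.sum_congr rfl fun k _ => e1 k, Finset.sum_comm]
    have e3 : ∀ A ∈ Finset.univ.filter (fun A : Finset (Fin s) => A.card ≤ d),
        ∑ k ∈ range M, (a k * t k ^ A.card) • (wal A x • vc f A)
          = if A.card = 1 then wal A x • vc f A else 0 := by
      intro A hA
      rw [Finset.mem_filter] at hA
      rw [← Finset.sum_smul, hq _ hA.2]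
      split_ifs <;> simp
    rw [Finset.sum_congr rfl e3, ← Finset.sum_filter, Finset.filter_filter]
    have e4 : (Finset.univ.filter (fun A : Finset (Fin s) => A.card ≤ d ∧ A.card = 1))
        = Finset.univ.image (fun i : Fin s => ({i} : Finset (Fin s))) := by
      ext A
      simp only [Finset.mem_filter, Finset.mem_univ, true_and, Finset.mem_image]
      constructor
      · rintro ⟨_, h⟩
        obtain ⟨i, hi⟩ := Finset.card_eq_one.1 h
        exact ⟨i, hi.symm⟩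
      · rintro ⟨i, rfl⟩
        simp only [Finset.card_singleton, and_true]
        omega
    rw [e4, Finset.sum_image (fun i _ j _ h => Finset.singleton_injective h)]
    apply Finset.sum_congr rfl
    intro i _
    simp [wal]
  have h1 : ‖io P‖ ≤ (8 * d) * Real.sqrt (2 ^ s) := by
    rw [hP, map_sum]
    refine (norm_sum_le _ _).trans ?_
    have e1 : ∀ k ∈ range M, ‖io (a k • (Tn (t k) f - hi d (t k) f))‖
        ≤ |a k| * (2 * Real.sqrt (2 ^ s)) := by
      intro k _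
      rw [map_smul, norm_smul, Real.norm_eq_abs]
      apply mul_le_mul_of_nonneg_left _ (abs_nonneg _)
      rw [map_sub]
      refine (norm_sub_le _ _).trans ?_
      have e2 : ‖io (Tn (t k) f)‖ ≤ 1 * Real.sqrt (2 ^ s) := by
        apply io_le (by norm_num)
        have e3 : ∀ x, ‖Tn (t k) f x‖ ^ 2 ≤ 1 := by
          intro x
          have := Tn_norm (t := t k) ((ht k).trans (by norm_num)) hf x
          nlinarith [norm_nonneg (Tn (t k) f x)]
        calc ∑ x, ‖Tn (t k) f x‖ ^ 2 ≤ ∑ _x : Cu s, (1 : ℝ) := Finset.sum_le_sum fun x _ => e3 x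
          _ = 2 ^ s * 1 ^ 2 := by rw [← card_cu]; simp
      have e4 : ‖io (hi d (t k) f)‖ ≤ 1 * Real.sqrt (2 ^ s) :=
        io_le (by norm_num) (hi_small hn φ v hφ hv hx (ht k) hf)
      linarith
    refine (Finset.sum_le_sum e1).trans ?_
    rw [← Finset.sum_mul]
    have h0 : 0 ≤ Real.sqrt ((2 : ℝ) ^ s) := Real.sqrt_nonneg _
    nlinarith
  rw [io_norm] at h1
  have h2 : 0 ≤ ∑ x : Cu s, ‖P x‖ ^ 2 := Finset.sum_nonneg fun x _ => by positivity
  have h3 := pow_le_pow_left₀ (Real.sqrt_nonneg _) h1 2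
  rw [Real.sq_sqrt h2, mul_pow, Real.sq_sqrt (by positivity)] at h3
  calc ∑ x : Cu s, ‖∑ i, rv (x i) • vc f {i}‖ ^ 2 = ∑ x : Cu s, ‖P x‖ ^ 2 := rfl
    _ ≤ (8 * d) ^ 2 * 2 ^ s := h3
    _ = _ := by ring

end Pool.Agent.Helper799.PisierL
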