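import Mathlib
import Pool.Agent.Helper799.PisierL.KConv

set_option autoImplicit false

namespace Pool.Agent.Helper799.PisierL

open Finset

/-- Rademacher cotype `q` of `X` with constant at most `K` -/
def SpaceCotypeLE (X : Type*) [NormedAddCommGroup X] [NormedSpace ℝ X] (q K : ℝ) : Prop :=
  ∀ (k : ℕ) (x : Fin k → X),
    (∑ i, ‖x i‖ ^ q) ^ (1 / q) ≤
      K * Real.sqrt ((∑ ε : Fin k → Bool,
        ‖∑ i, (if ε i then (1 : ℝ) else -1) • x i‖ ^ 2) / 2 ^ k)

/-- Booleans and signs -/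
def bu : Bool ≃ ℤˣ where
  toFun b := if b then 1 else -1
  invFun u := decide (u = 1)
  left_inv b := by cases b <;> decide
  right_inv u := by
    rcases Int.units_eq_one_or u with h | h <;> rw [h] <;> decide

lemma rv_bu (b : Bool) : rv (bu b) = if b then (1 : ℝ) else -1 := by
  cases b
  · simp [bu, rv_neg_one]
  · simp [bu, rv_one]

variable {X : Type*} [NormedAddCommGroup X] [NormedSpace ℝ X]

lemma sum_bool {k : ℕ} (x : Fin k → X) :
    ∑ ε : Fin k → Bool, ‖∑ i, (if ε i then (1 : ℝ) else -1) • x i‖ ^ 2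
      = ∑ u : Cu k, ‖∑ i, rv (u i) • x i‖ ^ 2 := by
  rw [← Equiv.sum_comp (Equiv.piCongrRight fun _ : Fin k => bu)
    (fun u : Cu k => ‖∑ i, rv (u i) • x i‖ ^ 2)]
  apply Finset.sum_congr rfl
  intro ε _
  congr 2
  apply Finset.sum_congr rfl
  intro i _
  simp only [Equiv.piCongrRight_apply, Pi.map_apply]
  rw [rv_bu]

/-- Rademacher averages in the dual of a space of cotype `q`. -/
theorem dual_rad {q K : ℝ} (hq : 1 ≤ q) (hK : 0 ≤ K) (hc : SpaceCotypeLE X q K)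
    {n d : ℕ} (hd : 0 < d) (hn : n ≤ 2 ^ d) (φ : Fin n → X →L[ℝ] ℝ) (v : Fin n → X)
    (hφ : ∀ j, ‖φ j‖ ≤ 1) (hv : ∀ j, ‖v j‖ ≤ 1) (hx : ∀ x, x = ∑ j, φ j x • v j)
    {s : ℕ} (hs : 0 < s) (y : Fin s → X →L[ℝ] ℝ) (hy : ∀ i, ‖y i‖ ≤ 1) :
    ∑ x : Cu s, ‖∑ i, rv (x i) • y i‖ ≤ 2 ^ s * (16 * K * d * (s / (s : ℝ) ^ (1 / q))) := by
  classical
  have hsr : (0 : ℝ) < s := by exact_mod_cast hs
  have hq0 : 0 < q := by linarith
  -- norming function
  have hex : ∀ x : Cu s, ∃ z : X, ‖z‖ ≤ 1 ∧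
      ‖∑ i, rv (x i) • y i‖ ≤ 2 * (∑ i, rv (x i) • y i) z := by
    intro x
    set Y := ∑ i, rv (x i) • y i with hY
    rcases (norm_nonneg Y).eq_or_lt' with h0 | h0
    · exact ⟨0, by simp, by rw [h0]; simp⟩
    · obtain ⟨z, hz1, hz2⟩ := ContinuousLinearMap.exists_lt_apply_of_lt_opNorm Y
        (show ‖Y‖ / 2 < ‖Y‖ by linarith)
      rw [Real.norm_eq_abs] at hz2
      rcases abs_cases (Y z) with ⟨h1, _⟩ | ⟨h1, _⟩
      · exact ⟨z, hz1.le, by rw [h1] at hz2; linarith⟩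
      · refine ⟨-z, by rw [norm_neg]; exact hz1.le, ?_⟩
        rw [map_neg]
        rw [h1] at hz2
        linarith
  choose f hf1 hf2 using hex
  set a : Fin s → X := fun i => vc f {i} with ha
  have h1 : ∑ x : Cu s, ‖∑ i, rv (x i) • y i‖ ≤ 2 * (2 ^ s * ∑ i, ‖a i‖) := by
    have e1 : ∑ x : Cu s, (∑ i, rv (x i) • y i) (f x) = 2 ^ s * ∑ i, y i (a i) := by
      have e2 : ∀ x : Cu s, (∑ i, rv (x i) • y i) (f x) = ∑ i, y i (rv (x i) • f x) := by
        intro x
        simp [ContinuousLinearMap.sum_apply, map_smul]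
      rw [Finset.sum_congr rfl fun x _ => e2 x, Finset.sum_comm, Finset.mul_sum]
      apply Finset.sum_congr rfl
      intro i _
      rw [← map_sum, ha]
      simp only [vc]
      rw [map_smul, smul_eq_mul, ← mul_assoc, mul_inv_cancel₀ (by positivity), one_mul]
      congr 1
      apply Finset.sum_congr rfl
      intro x _
      simp [wal]
    have e3 : ∑ i, y i (a i) ≤ ∑ i, ‖a i‖ := by
      apply Finset.sum_le_sum
      intro i _
      have e4 := (y i).le_opNorm (a i)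
      have e5 := Real.le_norm_self (y i (a i))
      have e6 := hy i
      nlinarith [norm_nonneg (a i)]
    calc ∑ x : Cu s, ‖∑ i, rv (x i) • y i‖ ≤ ∑ x : Cu s, 2 * (∑ i, rv (x i) • y i) (f x) :=
          Finset.sum_le_sum fun x _ => hf2 x
      _ = 2 * (2 ^ s * ∑ i, y i (a i)) := by rw [← Finset.mul_sum, e1]
      _ ≤ 2 * (2 ^ s * ∑ i, ‖a i‖) := by gcongr
  have h2 : (∑ i, ‖a i‖ ^ q) ^ (1 / q) ≤ K * (8 * d) := by
    refine (hc s a).trans ?_
    apply mul_le_mul_of_nonneg_left _ hK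
    rw [sum_bool]
    have e1 := kconv hd hn φ v hφ hv hx hf1
    apply Real.sqrt_le_iff.2
    refine ⟨by positivity, ?_⟩
    rw [div_le_iff₀ (by positivity)]
    calc ∑ u : Cu s, ‖∑ i, rv (u i) • a i‖ ^ 2 ≤ 2 ^ s * (8 * d) ^ 2 := e1
      _ = _ := by ring
  have h3 : ∑ i, ‖a i‖ ≤ s / (s : ℝ) ^ (1 / q) * (∑ i, ‖a i‖ ^ q) ^ (1 / q) := by
    have e3 := Real.rpow_sum_le_const_mul_sum_rpow (Finset.univ : Finset (Fin s))
      (fun i => ‖a i‖) hq
    simp only [abs_norm, Finset.card_univ, Fintype.card_fin] at e3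
    have hs0 : 0 ≤ ∑ i, ‖a i‖ ^ q :=
      Finset.sum_nonneg fun l _ => Real.rpow_nonneg (norm_nonneg _) _
    have hsn : 0 ≤ ∑ i, ‖a i‖ := Finset.sum_nonneg fun l _ => norm_nonneg _
    have h5 := Real.rpow_le_rpow (Real.rpow_nonneg hsn _) e3 (by positivity : (0 : ℝ) ≤ 1 / q)
    rw [← Real.rpow_mul hsn, mul_one_div_cancel hq0.ne', Real.rpow_one,
      Real.mul_rpow (by positivity) hs0, ← Real.rpow_mul hsr.le] at h5
    have h6 : (q - 1) * (1 / q) = 1 - 1 / q := by field_simp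
    rw [h6, Real.rpow_sub hsr, Real.rpow_one] at h5
    exact h5
  have h4 : 0 ≤ (s : ℝ) / (s : ℝ) ^ (1 / q) := by positivity
  have h5 : ∑ i, ‖a i‖ ≤ s / (s : ℝ) ^ (1 / q) * (K * (8 * d)) :=
    h3.trans (mul_le_mul_of_nonneg_left h2 h4)
  refine h1.trans ?_
  have h6 : (0 : ℝ) < 2 ^ s := by positivity
  calc 2 * (2 ^ s * ∑ i, ‖a i‖) ≤ 2 * (2 ^ s * (s / (s : ℝ) ^ (1 / q) * (K * (8 * d)))) := by
        gcongr
    _ = _ := by ring

/-- Functionals on a subspace of `ℓ_∞^N`. -/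
theorem represent {N : ℕ} (T : X →ₗ[ℝ] (Fin N → ℝ)) (hT : ∀ x, ‖x‖ ≤ ‖T x‖)
    (y : X →L[ℝ] ℝ) (hy : ‖y‖ ≤ 1) :
    ∃ c : Fin N → ℝ, ∑ j, |c j| ≤ 1 ∧ ∀ x, y x = ∑ j, c j * T x j := by
  have hinj : Function.Injective T := by
    rw [injective_iff_map_eq_zero]
    intro x hx
    have := hT x
    rw [hx, norm_zero] at this
    exact norm_le_zero_iff.1 this
  let e := LinearEquiv.ofInjective T hinj
  let f₀ : (LinearMap.range T) →ₗ[ℝ] ℝ := y.toLinearMap.comp e.symm.toLinearMap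
  have hf₀ : ∀ z, ‖f₀ z‖ ≤ 1 * ‖z‖ := by
    intro z
    obtain ⟨x, rfl⟩ := e.surjective z
    have h1 : f₀ (e x) = y x := by simp [f₀]
    rw [h1, one_mul]
    have h2 : ‖e x‖ = ‖T x‖ := rfl
    rw [h2]
    have h3 := y.le_opNorm x
    have h4 := hT x
    nlinarith [norm_nonneg x]
  let f : StrongDual ℝ (LinearMap.range T) := LinearMap.mkContinuous f₀ 1 hf₀
  obtain ⟨g, hg1, hg2⟩ := exists_extension_norm_eq (LinearMap.range T) f
  have hg3 : ‖g‖ ≤ 1 := by
    rw [hg2]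
    exact LinearMap.mkContinuous_norm_le _ (by norm_num) _
  have hgsum : ∀ z : Fin N → ℝ, g z = ∑ j, g (Pi.single j 1) * z j := by
    intro z
    have h1 : z = ∑ j, z j • (Pi.single j (1 : ℝ) : Fin N → ℝ) := by
      funext i
      simp [Finset.sum_apply, Pi.single_apply]
    conv_lhs => rw [h1]
    rw [map_sum]
    apply Finset.sum_congr rfl
    intro j _
    rw [map_smul, smul_eq_mul, mul_comm]
  refine ⟨fun j => g (Pi.single j 1), ?_, ?_⟩
  · let z : Fin N → ℝ := fun j => if 0 ≤ g (Pi.single j 1) then 1 else -1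
    have h1 : g z = ∑ j, |g (Pi.single j 1)| := by
      rw [hgsum z]
      apply Finset.sum_congr rfl
      intro j _
      simp only [z]
      split_ifs with h
      · rw [abs_of_nonneg h, mul_one]
      · rw [abs_of_neg (not_le.1 h)]; ring
    rw [← h1]
    have h2 : ‖z‖ ≤ 1 := by
      rw [pi_norm_le_iff_of_nonneg (by norm_num)]
      intro j
      simp only [z]
      split_ifs <;> simp
    have h3 := g.le_opNorm z
    have h4 := Real.le_norm_self (g z)
    nlinarith [norm_nonneg z, norm_nonneg g]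
  · intro x
    have h1 : g (T x) = y x := by
      have h2 := hg1 (e x)
      have h3 : ((e x : LinearMap.range T) : Fin N → ℝ) = T x := rfl
      rw [h3] at h2
      rw [h2]
      show f₀ (e x) = y x
      simp [f₀]
    rw [← h1, hgsum (T x)]

end Pool.Agent.Helper799.PisierL
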