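import Mathlib
import Pool.Agent.Helper799.PisierL.Walsh

set_option autoImplicit false

namespace Pool.Agent.Helper799.PisierL

open Finset

section maurey
variable {E : Type*} [NormedAddCommGroup E] [NormedSpace ℝ E] {Λ : Type*} [Fintype Λ]
  [DecidableEq Λ]

lemma sum_weights {Λ' : Type*} [Fintype Λ'] [DecidableEq Λ'] {ι : Type*} [Fintype ι]
    [DecidableEq ι] (p : Λ' → ℝ) (hp : ∑ l, p l = 1) :
    ∑ l : ι → Λ', ∏ i, p (l i) = 1 := by
  have h := Finset.prod_univ_sum (κ := fun _ : ι => Λ') (fun _ => (Finset.univ : Finset Λ'))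
    (fun _ u => p u)
  rw [Fintype.piFinset_univ] at h
  rw [← h, hp]
  simp

lemma marginal {s : ℕ} (p : Λ → ℝ) (hp : ∑ l, p l = 1) (Y : Λ → E) (i : Fin s) :
    ∑ l : Fin s → Λ, (∏ j, p (l j)) • Y (l i) = ∑ a, p a • Y a := by
  have h1 : ∀ l : Fin s → Λ, (∏ j, p (l j)) • Y (l i)
      = (fun z : Λ × ({j // j ≠ i} → Λ) => (∏ j, p (z.2 j)) • (p z.1 • Y z.1))
        (Equiv.funSplitAt i Λ l) := by
    intro l
    simp only [Equiv.funSplitAt, Equiv.piSplitAt]
    rw [Fintype.prod_eq_mul_prod_subtype_ne (fun j => p (l j)) i, smul_smul]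
    simp only [Equiv.coe_fn_mk]
    congr 1
    ring
  rw [Finset.sum_congr rfl fun l _ => h1 l, Equiv.sum_comp (Equiv.funSplitAt i Λ)
    (fun z : Λ × ({j // j ≠ i} → Λ) => (∏ j, p (z.2 j)) • (p z.1 • Y z.1)),
    Fintype.sum_prod_type]
  apply Finset.sum_congr rfl
  intro a _
  show ∑ y : ({j // j ≠ i} → Λ), (∏ j, p (y j)) • (p a • Y a) = p a • Y a
  rw [← Finset.sum_smul, sum_weights p hp, one_smul]

/-- Empirical method. -/
theorem maurey {s : ℕ} (p : Λ → ℝ) (hp0 : ∀ a, 0 ≤ p a) (hp : ∑ l, p l = 1) (Y : Λ → E)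
    {C : ℝ} (hC : ∀ l : Fin s → Λ, ∑ x : Cu s, ‖∑ i, rv (x i) • Y (l i)‖ ≤ 2 ^ s * C) :
    ∃ l : Fin s → Λ, ‖∑ i, Y (l i) - (s : ℝ) • ∑ a, p a • Y a‖ ≤ 2 * C := by
  let W : (Fin s → Λ) → ℝ := fun l => ∏ j, p (l j)
  have hW0 : ∀ l, 0 ≤ W l := fun l => Finset.prod_nonneg fun j _ => hp0 _
  have hW1 : ∑ l, W l = 1 := sum_weights p hp
  set y := ∑ a, p a • Y a with hy
  -- pairs
  let V : (Fin s → Λ × Λ) → ℝ := fun π => ∏ j, (p (π j).1 * p (π j).2)
  have hV0 : ∀ π, 0 ≤ V π := fun π => Finset.prod_nonneg fun j _ => mul_nonneg (hp0 _) (hp0 _)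
  have hV1 : ∑ π, V π = 1 := by
    apply sum_weights (fun z : Λ × Λ => p z.1 * p z.2)
    rw [Fintype.sum_prod_type]
    simp only
    rw [← Finset.sum_mul_sum, hp, mul_one]
  let G : (Fin s → Λ × Λ) → Cu s → ℝ := fun π x =>
    ‖∑ i, rv (x i) • (Y (π i).1 - Y (π i).2)‖
  -- step 1
  have step1 : ∑ l : Fin s → Λ, W l * ‖∑ i, Y (l i) - (s : ℝ) • y‖ ≤ ∑ π, V π * G π 1 := by
    have e1 : ∀ l : Fin s → Λ, ‖∑ i, Y (l i) - (s : ℝ) • y‖
        ≤ ∑ l' : Fin s → Λ, W l' * ‖∑ i, (Y (l i) - Y (l' i))‖ := by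
      intro l
      have e2 : ∑ i, Y (l i) - (s : ℝ) • y
          = ∑ l' : Fin s → Λ, W l' • ∑ i, (Y (l i) - Y (l' i)) := by
        have e3 : ∀ l' : Fin s → Λ, W l' • ∑ i, (Y (l i) - Y (l' i))
            = W l' • ∑ i, Y (l i) - ∑ i, W l' • Y (l' i) := by
          intro l'
          rw [Finset.sum_sub_distrib, smul_sub, Finset.smul_sum (s := Finset.univ)
            (f := fun i => Y (l' i))]
        rw [Finset.sum_congr rfl fun l' _ => e3 l', Finset.sum_sub_distrib, ← Finset.sum_smul,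
          hW1, one_smul, Finset.sum_comm]
        congr 1
        rw [Finset.sum_congr rfl fun i _ => marginal p hp Y i, Finset.sum_const,
          Finset.card_univ, Fintype.card_fin]
        exact Nat.cast_smul_eq_nsmul ℝ s _
      rw [e2]
      refine (norm_sum_le _ _).trans (Finset.sum_le_sum fun l' _ => ?_)
      rw [norm_smul, Real.norm_of_nonneg (hW0 l')]
    calc ∑ l : Fin s → Λ, W l * ‖∑ i, Y (l i) - (s : ℝ) • y‖
        ≤ ∑ l : Fin s → Λ, W l * ∑ l' : Fin s → Λ, W l' * ‖∑ i, (Y (l i) - Y (l' i))‖ :=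
          Finset.sum_le_sum fun l _ => mul_le_mul_of_nonneg_left (e1 l) (hW0 l)
      _ = ∑ z : (Fin s → Λ) × (Fin s → Λ), W z.1 * W z.2 * ‖∑ i, (Y (z.1 i) - Y (z.2 i))‖ := by
          rw [Fintype.sum_prod_type]
          apply Finset.sum_congr rfl; intro l _
          rw [Finset.mul_sum]
          apply Finset.sum_congr rfl; intro l' _
          ring
      _ = ∑ π, V π * G π 1 := by
          rw [← Equiv.sum_comp (Equiv.arrowProdEquivProdArrow (Fin s) (fun _ => Λ) (fun _ => Λ))]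
          apply Finset.sum_congr rfl
          intro π _
          simp only [W, V, G, Equiv.arrowProdEquivProdArrow, Equiv.coe_fn_mk]
          rw [← Finset.prod_mul_distrib]
          congr 2
          apply Finset.sum_congr rfl
          intro i _
          rw [Pi.one_apply, rv_one, one_smul]
  -- step 2
  have step2 : ∀ x : Cu s, ∑ π, V π * G π 1 = ∑ π, V π * G π x := by
    intro x
    let σ : (Fin s → Λ × Λ) ≃ (Fin s → Λ × Λ) :=
      Equiv.piCongrRight (fun i => if x i = 1 then Equiv.refl (Λ × Λ) else Equiv.prodComm Λ Λ)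
    rw [← Equiv.sum_comp σ (fun π => V π * G π 1)]
    apply Finset.sum_congr rfl
    intro π _
    have e1 : V (σ π) = V π := by
      simp only [V]
      apply Finset.prod_congr rfl
      intro i _
      simp only [σ, Equiv.piCongrRight_apply, Pi.map_apply]
      by_cases h : x i = 1
      · simp [h]
      · simp only [h, if_false, Equiv.prodComm_apply, Prod.fst_swap, Prod.snd_swap]
        ring
    have e2 : G (σ π) 1 = G π x := by
      simp only [G]
      congr 1
      apply Finset.sum_congr rfl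
      intro i _
      rw [Pi.one_apply, rv_one, one_smul]
      simp only [σ, Equiv.piCongrRight_apply, Pi.map_apply]
      rcases Int.units_eq_one_or (x i) with h | h
      · simp [h, rv_one]
      · have h' : x i ≠ 1 := by rw [h]; decide
        simp only [h', if_false, Equiv.prodComm_apply, Prod.fst_swap, Prod.snd_swap]
        rw [h, rv_neg_one]
        simp
    rw [e1, e2]
  -- step 3
  have step3 : 2 ^ s * ∑ π, V π * G π 1 ≤ 2 ^ s * (2 * C) := by
    have e1 : (2 : ℝ) ^ s * ∑ π, V π * G π 1 = ∑ x : Cu s, ∑ π, V π * G π x := by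
      rw [← Finset.sum_congr rfl fun x _ => step2 x]
      rw [Finset.sum_const, Finset.card_univ, nsmul_eq_mul, card_cu]
    rw [e1, Finset.sum_comm]
    have e2 : ∀ π, ∑ x : Cu s, V π * G π x ≤ V π * (2 ^ s * (2 * C)) := by
      intro π
      rw [← Finset.mul_sum]
      apply mul_le_mul_of_nonneg_left _ (hV0 π)
      have e3 : ∀ x, G π x ≤ ‖∑ i, rv (x i) • Y (π i).1‖ + ‖∑ i, rv (x i) • Y (π i).2‖ := by
        intro x
        simp only [G]
        have : ∑ i, rv (x i) • (Y (π i).1 - Y (π i).2)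
            = ∑ i, rv (x i) • Y (π i).1 - ∑ i, rv (x i) • Y (π i).2 := by
          rw [← Finset.sum_sub_distrib]
          exact Finset.sum_congr rfl fun i _ => smul_sub _ _ _
        rw [this]
        exact norm_sub_le _ _
      refine (Finset.sum_le_sum fun x _ => e3 x).trans ?_
      rw [Finset.sum_add_distrib]
      have h1 := hC (fun i => (π i).1)
      have h2 := hC (fun i => (π i).2)
      linarith
    refine (Finset.sum_le_sum fun π _ => e2 π).trans ?_
    rw [← Finset.sum_mul, hV1, one_mul]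
  have step4 : ∑ l : Fin s → Λ, W l * ‖∑ i, Y (l i) - (s : ℝ) • y‖ ≤ 2 * C :=
    step1.trans (le_of_mul_le_mul_left step3 (by positivity))
  by_contra hcon
  push Not at hcon
  have h1 : ∑ l : Fin s → Λ, W l * (2 * C) < ∑ l : Fin s → Λ, W l * ‖∑ i, Y (l i) - (s : ℝ) • y‖ := by
    obtain ⟨l₀, hl₀⟩ : ∃ l, 0 < W l := by
      by_contra h
      push Not at h
      have : ∑ l, W l ≤ 0 := Finset.sum_nonpos fun l _ => h l
      rw [hW1] at this
      linarith
    apply Finset.sum_lt_sum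
    · intro l _
      exact mul_le_mul_of_nonneg_left (hcon l).le (hW0 l)
    · exact ⟨l₀, Finset.mem_univ _, mul_lt_mul_of_pos_left (hcon l₀) hl₀⟩
  rw [← Finset.sum_mul, hW1, one_mul] at h1
  linarith

end maurey

/-- Volume bound for coverings of the unit ball. -/
theorem cover_card {E : Type*} [NormedAddCommGroup E] [NormedSpace ℝ E] [FiniteDimensional ℝ E]
    {ι : Type*} [Fintype ι] (c : ι → E)
    (h : ∀ y : E, ‖y‖ ≤ 1 → ∃ i, ‖y - c i‖ ≤ 1 / 2) :
    (2 : ℝ) ^ (Module.finrank ℝ E) ≤ Fintype.card ι := by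
  borelize E
  let μ : MeasureTheory.Measure E := MeasureTheory.Measure.addHaar
  have h1 : Metric.closedBall (0 : E) 1 ⊆ ⋃ i ∈ (Finset.univ : Finset ι), Metric.closedBall (c i) (1 / 2) := by
    intro y hy
    obtain ⟨i, hi⟩ := h y (by simpa using hy)
    simp only [Finset.mem_univ, Set.iUnion_true, Set.mem_iUnion]
    exact ⟨i, by rw [Metric.mem_closedBall, dist_eq_norm]; exact hi⟩
  have h2 : μ (Metric.closedBall (0 : E) 1) ≤ ∑ i : ι, μ (Metric.closedBall (c i) (1 / 2)) :=
    (MeasureTheory.measure_mono h1).trans (MeasureTheory.measure_biUnion_finset_le _ _)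
  have h3 : ∀ i : ι, μ (Metric.closedBall (c i) (1 / 2))
      = ENNReal.ofReal ((1 / 2) ^ (Module.finrank ℝ E)) * μ (Metric.ball 0 1) := fun i =>
    MeasureTheory.Measure.addHaar_closedBall μ (c i) (by norm_num)
  rw [Finset.sum_congr rfl fun i _ => h3 i, MeasureTheory.Measure.addHaar_closedBall μ 0 (by norm_num : (0 : ℝ) ≤ 1)] at h2
  simp only [Finset.sum_const, Finset.card_univ, one_pow, ENNReal.ofReal_one, one_mul, nsmul_eq_mul] at h2
  have hpos : μ (Metric.ball (0 : E) 1) ≠ 0 := (Metric.measure_ball_pos μ 0 (by norm_num)).ne'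
  have hfin : μ (Metric.ball (0 : E) 1) ≠ ⊤ := MeasureTheory.measure_ball_lt_top.ne
  rw [← mul_assoc] at h2
  have h4 : (1 : ENNReal) ≤ (Fintype.card ι : ENNReal) * ENNReal.ofReal ((1 / 2) ^ (Module.finrank ℝ E)) := by
    by_contra hcon
    push Not at hcon
    have := ENNReal.mul_lt_mul_left hpos hfin hcon
    rw [one_mul] at this
    exact absurd h2 (not_le.2 this)
  have h5 : (1 : ℝ) ≤ (Fintype.card ι : ℝ) * ((1 / 2) ^ (Module.finrank ℝ E)) := by
    have h6 := ENNReal.toReal_mono (by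
      apply ENNReal.mul_ne_top (ENNReal.natCast_ne_top _) ENNReal.ofReal_ne_top) h4
    rw [ENNReal.toReal_mul, ENNReal.toReal_ofReal (by positivity)] at h6
    simpa using h6
  have h7 : (0 : ℝ) < 2 ^ (Module.finrank ℝ E) := by positivity
  have h8 : ((1 : ℝ) / 2) ^ (Module.finrank ℝ E) = (2 ^ (Module.finrank ℝ E))⁻¹ := by
    rw [one_div, inv_pow]
  rw [h8, ← div_eq_mul_inv, le_div_iff₀ h7, one_mul] at h5
  exact h5

end Pool.Agent.Helper799.PisierL
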